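import Mathlib
import Pool.Agent.Lib.MP_dd05d9_lc.FIN2

/-!
# MP_dd05d9_lc: equality of automatic words when one of the two systems has polynomial growth

For any two abstract numeration systems such that at least one of the two languages has polynomial
growth (the other language is arbitrary), equality of a given word automatic in the first system and a
given word automatic in the second system is decidable.  The statement is the frozen statement of the
problem with the growth hypothesis (the number of words of length n of the language is at most
c * (n+1)^c) on one of the two languages.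
-/

set_option autoImplicit false

namespace Pool.Agent.Results.MP_dd05d9_lc.OnePolynomialSystem

/-- Let L1 and L2 be infinite regular languages over ordered finite alphabets such that the number
of words of length n of L1 or the number of words of length n of L2 is at most a polynomial in n.
Then whether two words given by automata with output, one automatic in the system of L1 and one
automatic in the system of L2 (both for the radix order), are equal is a computable predicate. -/
theorem result :
    ∀ (k1 k2 : ℕ) (L1 : Language (Fin k1)) (L2 : Language (Fin k2)),
      (∃ (σ : Type) (_ : Fintype σ) (M : DFA (Fin k1) σ), M.accepts = L1) →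
      (∃ (σ : Type) (_ : Fintype σ) (M : DFA (Fin k2) σ), M.accepts = L2) →
      {w : List (Fin k1) | w ∈ L1}.Infinite →
      {w : List (Fin k2) | w ∈ L2}.Infinite →
      ((∃ c : ℕ, ∀ n : ℕ, Set.ncard {w : List (Fin k1) | w ∈ L1 ∧ w.length = n} ≤
          c * (n + 1) ^ c) ∨
        (∃ c : ℕ, ∀ n : ℕ, Set.ncard {w : List (Fin k2) | w ∈ L2 ∧ w.length = n} ≤
          c * (n + 1) ^ c)) →
      ComputablePred (fun (p : (List ℕ × List ℕ) × (List ℕ × List ℕ)) =>
        ∀ w1 ∈ L1, ∀ w2 ∈ L2,
          Set.ncard {v : List (Fin k1) | v ∈ L1 ∧
              (v.length < w1.length ∨ (v.length = w1.length ∧ List.Lex (· < ·) v w1))} =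
            Set.ncard {v : List (Fin k2) | v ∈ L2 ∧
              (v.length < w2.length ∨ (v.length = w2.length ∧ List.Lex (· < ·) v w2))} →
          p.1.2.getD (List.foldl (fun q a => p.1.1.getD (q * k1 + a.val) 0) 0 w1) 0 =
            p.2.2.getD (List.foldl (fun q a => p.2.1.getD (q * k2 + a.val) 0) 0 w2) 0) := by
  intro k1 k2 L1 L2 r1 r2 i1 i2 g
  obtain ⟨σ1, inst1, M1, e1⟩ := r1
  obtain ⟨σ2, inst2, M2, e2⟩ := r2
  subst e1
  subst e2
  exact AW.fin_or M1 M2 i1 i2 g

end Pool.Agent.Results.MP_dd05d9_lc.OnePolynomialSystem
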